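import Pool.Agent.Run7.h876.HY.Main

/-!
# The order at the centre
-/

set_option autoImplicit false
set_option linter.unusedSectionVars false

namespace Run7.h876.HY

open NumberField IsDedekindDomain Filter Topology

section
variable {K : Type} [Field K] [NumberField K]

theorem central {G : ℂ → ℂ} (hG : DifferentiableOn ℂ G {s | 5 / 6 < s.re})
    (hG2 : ∀ x : ℝ, 5 / 6 < x → ∃ r : ℝ, 0 < r ∧ G x = r) (n : ℤ) (κ : ℕ) :
    ∃ c : ℝ, 0 < c ∧ Tendsto (fun x : ℝ => ((x : ℂ) - 1) ^ (κ + n) *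
      (dedekindZeta K x ^ n * dedekindZeta K (2 * x - 1) ^ κ * G x)) (𝓝[>] 1) (𝓝 (c : ℂ)) := by
  obtain ⟨g, hg0, hg⟩ := hG2 1 (by norm_num)
  set R := dedekindZeta_residue K with hR
  have hR0 : 0 < R := dedekindZeta_residue_pos K
  have hRc : (R : ℂ) ≠ 0 := by exact_mod_cast hR0.ne'
  refine ⟨R ^ n * (R / 2) ^ κ * g, by positivity, ?_⟩
  have h1 := tendsto_sub_one_mul_dedekindZeta_nhdsGT K
  have h2 : Tendsto (fun x : ℝ => ((x : ℂ) - 1) * dedekindZeta K (2 * x - 1)) (𝓝[>] 1) (𝓝 ((R / 2 : ℝ) : ℂ)) := by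
    have hm : Tendsto (fun x : ℝ => 2 * x - 1) (𝓝[>] 1) (𝓝[>] 1) := by
      refine tendsto_nhdsWithin_iff.2 ⟨?_, ?_⟩
      · have : Tendsto (fun x : ℝ => 2 * x - 1) (𝓝 1) (𝓝 (2 * 1 - 1)) := by
          exact (Continuous.tendsto (by fun_prop) 1)
        have e : (2 : ℝ) * 1 - 1 = 1 := by norm_num
        rw [e] at this
        exact this.mono_left nhdsWithin_le_nhds
      · filter_upwards [self_mem_nhdsWithin] with x hx
        have : (1 : ℝ) < x := hx
        show (1 : ℝ) < 2 * x - 1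
        linarith
    have h3 := (h1.comp hm).mul_const (1 / 2 : ℂ)
    have e2 : (R : ℂ) * (1 / 2) = ((R / 2 : ℝ) : ℂ) := by push_cast; ring
    rw [e2] at h3
    refine h3.congr fun x => ?_
    simp only [Function.comp_apply]
    push_cast
    ring
  have h3 : Tendsto (fun x : ℝ => G (x : ℂ)) (𝓝[>] 1) (𝓝 (g : ℂ)) := by
    have h4 : ContinuousAt G ((1 : ℝ) : ℂ) :=
      (hG.differentiableAt ((isOpen_lt continuous_const Complex.continuous_re).mem_nhds (by norm_num))).continuousAt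
    have h5 : Tendsto (fun x : ℝ => (x : ℂ)) (𝓝[>] 1) (𝓝 ((1 : ℝ) : ℂ)) :=
      (Complex.continuous_ofReal.tendsto 1).mono_left nhdsWithin_le_nhds
    have h6 := h4.tendsto.comp h5
    rw [hg] at h6
    exact h6
  have h4 := ((h1.zpow₀ n (Or.inl hRc)).mul (h2.pow κ)).mul h3
  have e : (R : ℂ) ^ n * ((R / 2 : ℝ) : ℂ) ^ κ * (g : ℂ) = ((R ^ n * (R / 2) ^ κ * g : ℝ) : ℂ) := by push_cast; ring
  rw [e] at h4
  refine h4.congr' ?_
  filter_upwards [self_mem_nhdsWithin] with x hx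
  have hx1 : (1 : ℝ) < x := hx
  have hx0 : ((x : ℂ) - 1) ≠ 0 := by
    have : (x : ℂ) - 1 = ((x - 1 : ℝ) : ℂ) := by push_cast; ring
    rw [this]
    exact_mod_cast (by linarith : x - 1 ≠ 0)
  rw [mul_zpow, mul_pow, zpow_add₀ hx0, zpow_natCast]
  ring

end

end Run7.h876.HY
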