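import Pool.Agent.Run7.h876.EN.Defs
import Pool.Agent.Run7.h876.EN.Pts
import Pool.Agent.Run7.h876.MM.Red

/-!
# Families of hyperelliptic curves with marked points over a number field, and their L-series
-/

set_option autoImplicit false

namespace Run7.h876.HY

open NumberField IsDedekindDomain Polynomial
open Run7.h876.MM (nv instFieldKv)
open Run7.h876.EN (affinePoints)

section
variable {K : Type} [Field K] [NumberField K]

/-- The trace of the `m`-th power of the Frobenius at `v` on the first cohomology of the smooth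
projective model of `y² = f(x)`, `f` monic: `Nv^m + 1` minus the number of the points over the
extension of degree `m` of the residue field (one point at infinity if the degree of `f` is odd, two if
it is even). -/
noncomputable def frobTrace (f : (𝓞 K)[X]) (v : HeightOneSpectrum (𝓞 K)) (m : ℕ) : ℤ :=
  (nv v : ℤ) ^ m + 1 - (affinePoints (nv v) (f.map (Ideal.Quotient.mk v.asIdeal)) m +
    if Odd f.natDegree then 1 else 2)

/-- `v` does not divide `2` and `f` is separable modulo `v`; the curve `y² = f(x)` has good reduction. -/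
def GoodAt (f : (𝓞 K)[X]) (v : HeightOneSpectrum (𝓞 K)) : Prop :=
  (2 : 𝓞 K) ∉ v.asIdeal ∧ (f.map (Ideal.Quotient.mk v.asIdeal)).Separable

open Classical in
/-- The Euler factor `det(1 - Frob_v Nv^(-s))⁻¹ = exp(∑ tr(Frob_v^m) Nv^(-ms) / m)` at the places of
`GoodAt`, and `1` otherwise. -/
noncomputable def factor (f : (𝓞 K)[X]) (v : HeightOneSpectrum (𝓞 K)) (s : ℂ) : ℂ :=
  if GoodAt f v then
    Complex.exp (∑' m : ℕ, (frobTrace f v (m + 1) : ℂ) * ((nv v : ℂ) ^ (-s)) ^ (m + 1) / ((m : ℂ) + 1))
  else 1

/-- The L-series of the Jacobian of `y² = f(x)`, without the Euler factors at the other places. -/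
noncomputable def LSeries (f : (𝓞 K)[X]) (s : ℂ) : ℂ := ∏' v : HeightOneSpectrum (𝓞 K), factor f v s

open Classical in
/-- The part `Nv ≤ Z` of the Euler product, a finite product. -/
noncomputable def partialProduct (Z : ℕ) (f : (𝓞 K)[X]) (s : ℂ) : ℂ :=
  ∏' v : HeightOneSpectrum (𝓞 K), if nv v ≤ Z then factor f v s else 1

open Classical in
variable (K) in
/-- The part `Nv ≤ Z` of the Euler product of the zeta function of `K`, a finite product. -/
noncomputable def partialZeta (Z : ℕ) (w : ℂ) : ℂ :=
  ∏' v : HeightOneSpectrum (𝓞 K), if nv v ≤ Z then (1 - (nv v : ℂ) ^ (-w))⁻¹ else 1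

end

/-- A family of monic polynomials `f_t = F₀ + (∏ (X - x_i)) (t₀ X + t₁ + ∑ t_j P_j)` of the same degree
`d ≥ 3` for which the curves `y² = f_t(x)` pass through the points `(x_i, y_i)`, `i < r`. -/
structure Family (K : Type) [Field K] [NumberField K] (J : Type) where
  /-- the number of the points -/
  r : ℕ
  /-- a member of the family -/
  F₀ : (𝓞 K)[X]
  /-- the coordinates of the points -/
  x : Fin r → 𝓞 K
  /-- the coordinates of the points -/
  y : Fin r → 𝓞 K
  /-- further parameters -/
  P : J → (𝓞 K)[X]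
  monic : F₀.Monic
  deg_three : 3 ≤ F₀.natDegree
  deg : r + 2 ≤ F₀.natDegree
  deg_P : ∀ j, r + (P j).natDegree < F₀.natDegree
  x_inj : Function.Injective x
  y_ne : ∀ i, y i ≠ 0
  on_curve : ∀ i, F₀.eval (x i) = y i ^ 2

namespace Family
variable {K : Type} [Field K] [NumberField K] {J : Type} [Fintype J] (𝓕 : Family K J)

/-- The members of the family. -/
noncomputable def member (t : Fin 2 ⊕ J → 𝓞 K) : (𝓞 K)[X] :=
  𝓕.F₀ + (∏ i, (X - C (𝓕.x i))) *
    (C (t (Sum.inl 0)) * X + C (t (Sum.inl 1)) + ∑ j, C (t (Sum.inr j)) * 𝓕.P j)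

/-- The number of the marked points of the Jacobians: one for each pair `(x_i, ± y_i)`, and one for the
two points at infinity if the degree is even. -/
def rk : ℕ := 𝓕.r + if Odd 𝓕.F₀.natDegree then 0 else 1

/-- The parameters for which the curve `y² = f_t(x)` is smooth. -/
def smooth : Set (Fin 2 ⊕ J → 𝓞 K) := {t | ((𝓕.member t).map (algebraMap (𝓞 K) K)).Separable}

end Family

end Run7.h876.HY
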