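import Pool.Agent.Run7.h876.HY.Red
import Pool.Agent.Run7.h876.EN.Eng2

/-!
# The limit function of the moments
-/

set_option autoImplicit false
set_option linter.unusedSectionVars false

namespace Run7.h876.HY

open NumberField IsDedekindDomain Finset Filter Topology
open Run7.h876.MM (nv kv two_le_nv nv_pos avg card_kv xv norm_xv sqrt_mul_xv xv_sq instFieldKv instFintypeKv instDecKv
  nv_rpow_le y0_lt norm_avg_le tail_bound tail_small mult_of tprod_ne hasProd_zeta xv_real)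
open Run7.h876.EN

section
variable {K : Type} [Field K] [NumberField K] {J : Type} [Fintype J] [DecidableEq J] (𝓕 : Family K J)

/-- the exponent of the normalised local factor -/
noncomputable def ex (k : ℂ) (v : HeightOneSpectrum (𝓞 K)) (s : ℂ) (t : Fin 2 ⊕ J → kv v) : ℂ :=
  expo k ((𝓕.rk : ℝ) : ℂ) (nv v) (av 𝓕 v t) (xv v s)

/-- the normalised local mean -/
noncomputable def hv (k : ℂ) (v : HeightOneSpectrum (𝓞 K)) (s : ℂ) : ℂ :=
  avg Finset.univ (fun t => Complex.exp (ex 𝓕 k v s t))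

/-- the limit function -/
noncomputable def GG (k : ℂ) (s : ℂ) : ℂ := ∏' v : HeightOneSpectrum (𝓞 K), hv 𝓕 k v s

theorem sqrt_nv_xv (v : HeightOneSpectrum (𝓞 K)) (s : ℂ) :
    Real.sqrt (nv v) * ‖xv v s‖ = (nv v : ℝ) ^ (1 / 2 - s.re) := by
  have := sqrt_mul_xv v s
  rwa [card_kv] at this

theorem one_le_nv (v : HeightOneSpectrum (𝓞 K)) : (1 : ℝ) ≤ nv v := by
  have := two_le_nv v
  exact_mod_cast (by omega : 1 ≤ nv v)

theorem y_le {σ : ℝ} (hσ : 1 / 2 < σ) (v : HeightOneSpectrum (𝓞 K)) {s : ℂ} (hs : σ ≤ s.re) :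
    Real.sqrt (nv v) * ‖xv v s‖ ≤ 2 ^ (1 / 2 - σ) := by
  obtain ⟨h1, h2⟩ := nv_rpow_le hσ v hs
  rw [sqrt_nv_xv]
  exact h1.trans h2

/-- the bound of the exponents -/
noncomputable def EB (R σ : ℝ) : ℝ := A0 R (DD 𝓕.F₀.natDegree) 𝓕.rk (2 ^ (1 / 2 - σ))

theorem EB_nonneg {R σ : ℝ} (hR : 0 ≤ R) (hσ : 1 / 2 < σ) : 0 ≤ EB 𝓕 R σ :=
  A0_nonneg hR (DD_nonneg _) (by positivity) (y0_lt hσ)

theorem ex_le {R σ : ℝ} (hR : 0 ≤ R) (hσ : 1 / 2 < σ) {k : ℂ} (hk : ‖k‖ ≤ R) (v : HeightOneSpectrum (𝓞 K)) {s : ℂ}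
    (hs : σ ≤ s.re) (t : Fin 2 ⊕ J → kv v) : ‖ex 𝓕 k v s t‖ ≤ EB 𝓕 R σ := by
  have h := (expo_le hR (DD_nonneg _) (by positivity) (y0_lt hσ) hk (one_le_nv v) (y_le hσ v hs) (av 𝓕 v t) (av_le 𝓕 v t)
    (r := (𝓕.rk : ℝ))).1
  refine h.trans (mul_le_of_le_one_right (EB_nonneg 𝓕 hR hσ) ((y_le hσ v hs).trans (y0_lt hσ).le))

theorem exp_ex_le {R σ : ℝ} (hR : 0 ≤ R) (hσ : 1 / 2 < σ) {k : ℂ} (hk : ‖k‖ ≤ R) (v : HeightOneSpectrum (𝓞 K)) {s : ℂ}
    (hs : σ ≤ s.re) (t : Fin 2 ⊕ J → kv v) : ‖Complex.exp (ex 𝓕 k v s t)‖ ≤ Real.exp (EB 𝓕 R σ) := by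
  rw [Complex.norm_exp]
  exact Real.exp_le_exp.2 (((Complex.re_le_norm _)).trans (ex_le 𝓕 hR hσ hk v hs t))

open Classical in
/-- **The majorant.** -/
theorem exists_u {σ : ℝ} (hσ : 5 / 6 < σ) {R : ℝ} (hR : 0 ≤ R) :
    ∃ u : HeightOneSpectrum (𝓞 K) → ℝ, Summable u ∧
    ∀ (v : HeightOneSpectrum (𝓞 K)) (k s : ℂ), ‖k‖ ≤ R → σ ≤ s.re → ‖hv 𝓕 k v s - 1‖ ≤ u v := by
  have hσ2 : 1 / 2 < σ := by linarith
  obtain ⟨C, hC, hloc⟩ := local_est R (DD 𝓕.F₀.natDegree) 𝓕.rk (C1 𝓕.F₀.natDegree) (2 ^ (1 / 2 - σ)) hR (DD_nonneg _)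
    (by positivity) (C1_nonneg _) (y0_lt hσ2)
  set D : ℝ := Real.exp (EB 𝓕 R σ) + 1 with hD
  have hD0 : 0 ≤ D := by positivity
  refine ⟨fun v => C * ((nv v : ℝ) ^ (-(σ + 1 / 2)) + (nv v : ℝ) ^ (-(2 * σ - 1 / 2)) + (nv v : ℝ) ^ (-(3 * σ - 3 / 2))) +
    (if N0 𝓕 ∈ v.asIdeal then D else 0), ?_, ?_⟩
  · refine Summable.add ?_ ?_
    · exact (((Pool.Agent.H921R2.TatePole.nm_summable (K := K) (x := σ + 1 / 2) (by linarith)).add
        (Pool.Agent.H921R2.TatePole.nm_summable (K := K) (x := 2 * σ - 1 / 2) (by linarith))).add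
        (Pool.Agent.H921R2.TatePole.nm_summable (K := K) (x := 3 * σ - 3 / 2) (by linarith))).mul_left C
    · refine summable_of_hasFiniteSupport ((finite_bad 𝓕).subset fun v hv => ?_)
      by_contra hc
      apply hv
      exact if_neg hc
  · intro v k s hk hs
    have hnv := nv_pos v
    have h1nv := one_le_nv v
    by_cases hbad : N0 𝓕 ∈ v.asIdeal
    · simp only [if_pos hbad]
      have h1 : ‖hv 𝓕 k v s - 1‖ ≤ D := by
        refine (norm_sub_le _ _).trans ?_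
        rw [norm_one, hD]
        refine add_le_add_left ?_ _
        exact norm_avg_le _ _ _ (Real.exp_pos _).le fun t _ => exp_ex_le 𝓕 hR hσ2 hk v hs t
      have h2 : 0 ≤ C * ((nv v : ℝ) ^ (-(σ + 1 / 2)) + (nv v : ℝ) ^ (-(2 * σ - 1 / 2)) + (nv v : ℝ) ^ (-(3 * σ - 3 / 2))) := by
        positivity
      linarith
    · simp only [if_neg hbad, add_zero]
      obtain ⟨m1, m2, m3⟩ := local_moments 𝓕 hbad
      have h := hloc k hk (nv v) h1nv (xv v s) (y_le hσ2 v hs) (Fin 2 ⊕ J → kv v) inferInstance (av 𝓕 v) (av_le 𝓕 v) m1 m2 m3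
      refine h.trans (mul_le_mul_of_nonneg_left (add_le_add (add_le_add ?_ ?_) ?_) hC)
      · rw [norm_xv, Real.sqrt_eq_rpow, ← Real.rpow_sub hnv]
        exact Real.rpow_le_rpow_of_exponent_le h1nv (by linarith)
      · rw [sq, ← mul_assoc, sqrt_nv_xv, norm_xv, ← Real.rpow_add hnv]
        exact Real.rpow_le_rpow_of_exponent_le h1nv (by linarith)
      · rw [sqrt_nv_xv, ← Real.rpow_natCast, ← Real.rpow_mul hnv.le]
        refine Real.rpow_le_rpow_of_exponent_le h1nv ?_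
        push_cast
        linarith

/-! ### holomorphy -/

theorem ell_diff {D Q : ℝ} {a : ℕ → ℂ} (hD : 0 ≤ D) (hQ : 0 ≤ Q) (ha : ∀ m, ‖a m‖ ≤ D * Q ^ (m + 1)) {X : ℂ}
    (hX : Q * ‖X‖ < 1) : DifferentiableAt ℂ (ell a) X := by
  obtain ⟨y, hy1, hy2⟩ := exists_between hX
  have hy0 : 0 ≤ y := le_trans (by positivity) hy1.le
  have hopen : IsOpen {X : ℂ | Q * ‖X‖ < y} := isOpen_lt (by fun_prop) continuous_const
  have h := Complex.differentiableOn_tsum_of_summable_norm (u := fun m : ℕ => D * y ^ (m + 1))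
    (F := fun m X => a m * X ^ (m + 1) / ((m : ℂ) + 1)) (U := {X : ℂ | Q * ‖X‖ < y})
    (((summable_nat_add_iff 1).2 (summable_geometric_of_lt_one hy0 hy2)).mul_left D)
    (fun m => by fun_prop) hopen (fun m X hX => by
      refine (term_le hD hQ ha m).trans ?_
      have : Q * ‖X‖ ≤ y := le_of_lt hX
      gcongr)
  exact (h X hy1).differentiableAt (hopen.mem_nhds hy1)

theorem ex_diff {σ : ℝ} (hσ : 1 / 2 < σ) (k : ℂ) (v : HeightOneSpectrum (𝓞 K)) (t : Fin 2 ⊕ J → kv v) {s : ℂ}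
    (hs : σ ≤ s.re) : DifferentiableAt ℂ (fun s => ex 𝓕 k v s t) s := by
  have hx := Run7.h876.MM.xv_diff v s
  have hy : Real.sqrt (nv v) * ‖xv v s‖ < 1 := (y_le hσ v hs).trans_lt (y0_lt hσ)
  have hQ1 : 1 ≤ Real.sqrt (nv v) := Real.one_le_sqrt.2 (one_le_nv v)
  have hX1 : 1 * ‖xv v s‖ < 1 := by
    rw [one_mul]
    exact (le_mul_of_one_le_left (norm_nonneg _) hQ1).trans_lt hy
  have hqX : 1 * ‖((nv v : ℝ) : ℂ) * xv v s ^ 2‖ < 1 := by
    have e : ‖((nv v : ℝ) : ℂ) * xv v s ^ 2‖ = (Real.sqrt (nv v) * ‖xv v s‖) ^ 2 := by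
      rw [norm_mul, norm_pow, Complex.norm_real, Real.norm_of_nonneg (nv_pos v).le, mul_pow, Real.sq_sqrt (nv_pos v).le]
    rw [one_mul, e]
    exact pow_lt_one₀ (by positivity) hy two_ne_zero
  have d1 : DifferentiableAt ℂ (fun s => ell (av 𝓕 v t) (xv v s)) s :=
    (ell_diff (DD_nonneg _) (Real.sqrt_nonneg _) (av_le 𝓕 v t) hy).comp s hx
  have d2 : DifferentiableAt ℂ (fun s => ell (fun _ => 1) (xv v s)) s :=
    DifferentiableAt.comp s (ell_diff (a := fun _ => (1 : ℂ)) zero_le_one zero_le_one one_bound hX1) hx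
  have d3 : DifferentiableAt ℂ (fun s => ell (fun _ => 1) (((nv v : ℝ) : ℂ) * xv v s ^ 2)) s :=
    DifferentiableAt.comp (f := fun s => ((nv v : ℝ) : ℂ) * xv v s ^ 2) (g := ell (fun _ => 1)) s
      (ell_diff (a := fun _ => (1 : ℂ)) zero_le_one zero_le_one one_bound hqX) (by fun_prop)
  unfold ex expo
  exact ((d1.const_mul _).add (d2.const_mul _)).sub (d3.const_mul _)

theorem hv_diff {σ : ℝ} (hσ : 1 / 2 < σ) (k : ℂ) (v : HeightOneSpectrum (𝓞 K)) {s : ℂ}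
    (hs : σ ≤ s.re) : DifferentiableAt ℂ (hv 𝓕 k v) s := by
  unfold hv avg
  exact (DifferentiableAt.fun_sum fun t _ => (ex_diff 𝓕 hσ k v t hs).cexp).div_const _

theorem GG_diff (k : ℂ) : DifferentiableOn ℂ (GG 𝓕 k) {s | 5 / 6 < s.re} := by
  classical
  intro s₀ hs₀
  have hs₀' : 5 / 6 < s₀.re := hs₀
  set σ : ℝ := (5 / 6 + s₀.re) / 2 with hσ
  have hσ1 : 5 / 6 < σ := by rw [hσ]; linarith
  have hσ2 : σ < s₀.re := by rw [hσ]; linarith
  obtain ⟨u, hu, hub⟩ := exists_u 𝓕 hσ1 (norm_nonneg k)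
  have hopen : IsOpen {s : ℂ | σ < s.re} := isOpen_lt continuous_const Complex.continuous_re
  have hT : TendstoUniformlyOn (fun (F : Finset (HeightOneSpectrum (𝓞 K))) s => ∏ v ∈ F, hv 𝓕 k v s) (GG 𝓕 k) atTop
      {s : ℂ | σ < s.re} := by
    rw [Metric.tendstoUniformlyOn_iff]
    intro ε hε
    obtain ⟨S, hS⟩ := tail_small hu hε
    filter_upwards [Filter.eventually_ge_atTop S] with F hF s hs
    rw [dist_eq_norm]
    have hs' : σ < s.re := hs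
    exact (tail_bound hu (fun v => hub v k s le_rfl hs'.le) F).trans_lt (hS F hF)
  have hd := hT.tendstoLocallyUniformlyOn.differentiableOn (Filter.Eventually.of_forall fun F s hs => by
    have hs' : σ < s.re := hs
    exact (DifferentiableAt.fun_finsetProd fun v _ => hv_diff 𝓕 (by linarith) k v hs'.le).differentiableWithinAt) hopen
  exact ((hd s₀ hσ2).differentiableAt (hopen.mem_nhds hσ2)).differentiableWithinAt

/-! ### positivity -/

theorem ell_real (b : ℕ → ℝ) (x : ℝ) : ∃ r : ℝ, ell (fun m => (b m : ℂ)) (x : ℂ) = (r : ℂ) := by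
  refine ⟨∑' m : ℕ, b m * x ^ (m + 1) / ((m : ℝ) + 1), ?_⟩
  unfold ell
  rw [Complex.ofReal_tsum]
  refine tsum_congr fun m => ?_
  push_cast
  ring

theorem ex_real (k x : ℝ) (v : HeightOneSpectrum (𝓞 K)) (t : Fin 2 ⊕ J → kv v) :
    ∃ r : ℝ, ex 𝓕 k v x t = (r : ℂ) := by
  classical
  obtain ⟨r1, h1⟩ := ell_real (fun m => if ringChar (kv v) ≠ 2 then (trc (fpol 𝓕 v t) m : ℝ) else 0) ((nv v : ℝ) ^ (-x))
  obtain ⟨r2, h2⟩ := ell_real (fun _ => 1) ((nv v : ℝ) ^ (-x))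
  obtain ⟨r3, h3⟩ := ell_real (fun _ => 1) ((nv v : ℝ) * ((nv v : ℝ) ^ (-x)) ^ 2)
  have e1 : av 𝓕 v t = fun m => (((if ringChar (kv v) ≠ 2 then (trc (fpol 𝓕 v t) m : ℝ) else 0) : ℝ) : ℂ) := by
    funext m; exact av_real 𝓕 v t m
  have e2 : (fun _ : ℕ => (1 : ℂ)) = fun _ => ((1 : ℝ) : ℂ) := by simp
  refine ⟨k * r1 + k * 𝓕.rk * r2 - k * (k - 1) / 2 * r3, ?_⟩
  unfold ex expo kp
  rw [e1, xv_real, h1, e2, h2]
  have e3 : ((nv v : ℝ) : ℂ) * (((nv v : ℝ) ^ (-x) : ℝ) : ℂ) ^ 2 = (((nv v : ℝ) * ((nv v : ℝ) ^ (-x)) ^ 2 : ℝ) : ℂ) := by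
    push_cast; rfl
  rw [e3, h3]
  push_cast
  ring

theorem hv_real (k x : ℝ) (v : HeightOneSpectrum (𝓞 K)) :
    ∃ r : ℝ, 0 < r ∧ hv 𝓕 k v (x : ℂ) = (r : ℂ) := by
  classical
  choose r hr using fun t => ex_real 𝓕 k x v t
  refine ⟨(∑ t, Real.exp (r t)) / (Fintype.card (Fin 2 ⊕ J → kv v)), ?_, ?_⟩
  · have h1 : 0 < ∑ t, Real.exp (r t) := Finset.sum_pos (fun t _ => Real.exp_pos _) ⟨fun _ => 0, Finset.mem_univ _⟩
    have h2 : (0 : ℝ) < Fintype.card (Fin 2 ⊕ J → kv v) := by exact_mod_cast Fintype.card_pos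
    positivity
  · unfold hv avg
    simp only [hr]
    rw [Finset.card_univ]
    push_cast
    rfl

theorem GG_real (k : ℝ) {x : ℝ} (hx : 5 / 6 < x) : ∃ r : ℝ, 0 < r ∧ GG 𝓕 k (x : ℂ) = (r : ℂ) := by
  classical
  obtain ⟨u, hu, hub⟩ := exists_u 𝓕 hx (norm_nonneg (k : ℂ))
  have hb : ∀ v, ‖hv 𝓕 k v (x : ℂ) - 1‖ ≤ u v := fun v => hub v _ _ le_rfl (by simp)
  have h1 := (mult_of hu hb).hasProd
  choose r hr hr2 using fun v => hv_real 𝓕 k x v
  have hne : GG 𝓕 k (x : ℂ) ≠ 0 := tprod_ne hu hb fun v => by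
    rw [hr2 v]; exact_mod_cast (hr v).ne'
  have hprod : ∀ F : Finset (HeightOneSpectrum (𝓞 K)), ∏ v ∈ F, hv 𝓕 k v (x : ℂ) = ((∏ v ∈ F, r v : ℝ) : ℂ) := by
    intro F
    rw [Finset.prod_congr rfl fun v _ => hr2 v]
    push_cast; rfl
  have hre : Tendsto (fun F : Finset (HeightOneSpectrum (𝓞 K)) => (∏ v ∈ F, r v : ℝ)) atTop
      (𝓝 (GG 𝓕 k (x : ℂ)).re) := by
    have := (Complex.continuous_re.tendsto _).comp h1
    refine this.congr fun F => ?_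
    simp only [Function.comp_apply, hprod, Complex.ofReal_re]
  have him : Tendsto (fun _ : Finset (HeightOneSpectrum (𝓞 K)) => (0 : ℝ)) atTop
      (𝓝 (GG 𝓕 k (x : ℂ)).im) := by
    have := (Complex.continuous_im.tendsto _).comp h1
    refine this.congr fun F => ?_
    simp only [Function.comp_apply, hprod, Complex.ofReal_im]
  have him0 : (GG 𝓕 k (x : ℂ)).im = 0 := tendsto_nhds_unique him tendsto_const_nhds
  have hre0 : 0 ≤ (GG 𝓕 k (x : ℂ)).re := ge_of_tendsto' hre fun F => (Finset.prod_pos fun v _ => hr v).le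
  have he : GG 𝓕 k (x : ℂ) = ((GG 𝓕 k (x : ℂ)).re : ℂ) := by
    apply Complex.ext
    · simp
    · simp [him0]
  refine ⟨(GG 𝓕 k (x : ℂ)).re, lt_of_le_of_ne hre0 fun h => hne ?_, he⟩
  rw [he, ← h]; simp

end

end Run7.h876.HY
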