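import Pool.Agent.Run7.h876.HY.Lim

/-!
# The moments of the L-series
-/

set_option autoImplicit false
set_option linter.unusedSectionVars false

namespace Run7.h876.HY

open NumberField IsDedekindDomain Finset Filter Topology Polynomial
open Run7.h876.MM (nv kv two_le_nv nv_pos avg card_kv xv norm_xv sqrt_mul_xv xv_sq instFieldKv instFintypeKv instDecKv
  nv_rpow_le y0_lt norm_avg_le tail_bound tail_small mult_of tprod_ne hasProd_zeta xv_real SZ mem_SZ card_iota_pos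
  zfac_norm tprod_zpow')
open Run7.h876.EN

section
variable {K : Type} [Field K] [NumberField K] {J : Type} [Fintype J] [DecidableEq J] (𝓕 : Family K J)
variable {ι : Type} [Fintype ι] [DecidableEq ι] (ω : Module.Basis ι ℤ (𝓞 K))

/-! ### singular members -/

theorem member_update (t : Fin 2 ⊕ J → 𝓞 K) (b : 𝓞 K) :
    𝓕.member (Function.update t (Sum.inl 1) b) =
      𝓕.member (Function.update t (Sum.inl 1) 0) + (∏ i, (X - C (𝓕.x i))) * C b := by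
  unfold Family.member
  have h1 : (Sum.inl 0 : Fin 2 ⊕ J) ≠ Sum.inl 1 := by simp
  simp only [Function.update_self, Function.update_of_ne h1, ne_eq, reduceCtorEq, not_false_eq_true, Function.update_of_ne,
    C_0]
  ring

theorem thin_smooth : Thin ω (𝓕.smooth) ((𝓕.F₀.natDegree + 𝓕.r : ℕ) : ℝ) := by
  classical
  haveI : Nonempty ι := Fintype.card_pos_iff.1 (card_iota_pos ω)
  refine thin_of_fiber ω 𝓕.smooth (Sum.inl 1) (𝓕.F₀.natDegree + 𝓕.r) fun t B hB => ?_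
  set φ : 𝓞 K →+* K := algebraMap (𝓞 K) K with hφ
  have hinj : Function.Injective φ := NumberField.RingOfIntegers.coe_injective
  set R : Finset K := Finset.univ.image (fun i => φ (𝓕.x i)) with hR
  have hRc : R.card = 𝓕.r := by
    rw [hR, Finset.card_image_of_injective _ (fun a b h => 𝓕.x_inj (hinj h)), Finset.card_univ, Fintype.card_fin]
  have hmR : mR R = (∏ i, (X - C (𝓕.x i))).map φ := by
    unfold mR
    rw [hR, Finset.prod_image fun i _ j _ h => 𝓕.x_inj (hinj h)]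
    simp only [Polynomial.map_prod, Polynomial.map_sub, Polynomial.map_X, Polynomial.map_C]
  set V : K[X] := (𝓕.member (Function.update t (Sum.inl 1) 0)).map φ with hV
  have hm := member_monic 𝓕 (Function.update t (Sum.inl 1) 0)
  have hVm : V.Monic := hm.1.map φ
  have hVd : V.natDegree = 𝓕.F₀.natDegree := by rw [hV, hm.1.natDegree_map, hm.2]
  have hdeg := 𝓕.deg
  have h := nonsep_fiber hVm (R := R) (by rw [hRc, hVd]; exact hdeg) (fun x hx => by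
      obtain ⟨i, _, rfl⟩ := Finset.mem_image.1 hx
      have e1 : V.eval (φ (𝓕.x i)) = φ (𝓕.y i) ^ 2 := by
        rw [hV, eval_map, eval₂_at_apply]
        unfold Family.member
        rw [eval_add, eval_mul, eval_prod, Finset.prod_eq_zero (Finset.mem_univ i) (by simp), zero_mul, add_zero,
          𝓕.on_curve, map_pow]
      rw [e1]
      refine pow_ne_zero _ ?_
      rw [Ne, map_eq_zero_iff φ hinj]
      exact 𝓕.y_ne i) (by
      rw [hRc, hVd]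
      exact_mod_cast (by omega : 𝓕.F₀.natDegree - 𝓕.r ≠ 0)) (B.image φ) (fun b hb => by
      obtain ⟨b', hb', rfl⟩ := Finset.mem_image.1 hb
      have h1 := hB b' hb'
      intro h2
      apply h1
      show ((𝓕.member (Function.update t (Sum.inl 1) b')).map φ).Separable
      rw [member_update, Polynomial.map_add, Polynomial.map_mul, ← hmR, Polynomial.map_C]
      exact h2)
  rw [Finset.card_image_of_injective _ hinj, hVd, hRc] at h
  exact h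

/-! ### zeta -/

theorem zeta_ne {s : ℂ} (hs : 1 < s.re) : dedekindZeta K s ≠ 0 := by
  have h1 := hasProd_zeta (K := K) hs
  have hsum : Summable fun v : HeightOneSpectrum (𝓞 K) => ‖-((nv v : ℂ) ^ (-s))‖ := by
    refine (Pool.Agent.H921R2.TatePole.nm_summable (K := K) (x := s.re) hs).congr fun v => ?_
    have h : 0 < nv v := by have := two_le_nv v; omega
    rw [norm_neg, Complex.norm_natCast_cpow_of_pos h, Complex.neg_re]
    rfl
  have h2 := (multipliable_one_add_of_summable hsum).hasProd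
  have h3 := h1.mul h2
  have h4 : HasProd (fun _ : HeightOneSpectrum (𝓞 K) => (1 : ℂ)) 1 := hasProd_one
  have h5 : (fun v : HeightOneSpectrum (𝓞 K) => (1 - (nv v : ℂ) ^ (-s))⁻¹ * (1 + -((nv v : ℂ) ^ (-s)))) = fun _ => 1 := by
    funext v
    have hne : (1 - (nv v : ℂ) ^ (-s)) ≠ 0 := by
      intro h0
      have h6 : ‖(nv v : ℂ) ^ (-s)‖ = 1 := by rw [← sub_eq_zero.1 h0, norm_one]
      have h : 0 < nv v := by have := two_le_nv v; omega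
      rw [Complex.norm_natCast_cpow_of_pos h, Complex.neg_re] at h6
      have h2nv : (2 : ℝ) ≤ nv v := by exact_mod_cast two_le_nv v
      have : (nv v : ℝ) ^ (-s.re) < 1 := Real.rpow_lt_one_of_one_lt_of_neg (by linarith) (by linarith)
      linarith
    rw [← sub_eq_add_neg, inv_mul_cancel₀ hne]
  rw [h5] at h3
  have h6 := h3.unique h4
  intro h0
  rw [h0, zero_mul] at h6
  exact zero_ne_one h6

theorem hasProd_zpow' {α : Type*} {f : α → ℂ} {a : ℂ} (h : HasProd f a) (ha : a ≠ 0) (n : ℤ) :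
    HasProd (fun v => f v ^ n) (a ^ n) := by
  have h3 : Tendsto (fun F : Finset α => (∏ v ∈ F, f v) ^ n) atTop (𝓝 (a ^ n)) :=
    Tendsto.zpow₀ h n (Or.inl ha)
  refine h3.congr fun F => ?_
  exact (Finset.prod_zpow f F n).symm

theorem kp_int {k : ℤ} {κ : ℕ} (hκ : 2 * (κ : ℤ) = k * (k - 1)) : kp (k : ℂ) = κ := by
  unfold kp
  have : (2 : ℂ) * κ = k * (k - 1) := by exact_mod_cast congrArg (Int.cast (R := ℂ)) hκ
  rw [← this]
  ring

theorem xv_lt {s : ℂ} (hs : 1 / 2 < s.re) (v : HeightOneSpectrum (𝓞 K)) : ‖xv v s‖ < 1 ∧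
    ‖((nv v : ℝ) : ℂ) * xv v s ^ 2‖ < 1 := by
  have hy : Real.sqrt (nv v) * ‖xv v s‖ < 1 := (y_le hs v le_rfl).trans_lt (y0_lt hs)
  have hQ1 : 1 ≤ Real.sqrt (nv v) := Real.one_le_sqrt.2 (one_le_nv v)
  refine ⟨(le_mul_of_one_le_left (norm_nonneg _) hQ1).trans_lt hy, ?_⟩
  have e : ‖((nv v : ℝ) : ℂ) * xv v s ^ 2‖ = (Real.sqrt (nv v) * ‖xv v s‖) ^ 2 := by
    rw [norm_mul, norm_pow, Complex.norm_real, Real.norm_of_nonneg (nv_pos v).le, mul_pow, Real.sq_sqrt (nv_pos v).le]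
  rw [e]
  exact pow_lt_one₀ (by positivity) hy two_ne_zero

/-- The normalised power in terms of the Euler factor. -/
theorem exp_ex_eq {k : ℤ} {κ : ℕ} (hκ : 2 * (κ : ℤ) = k * (k - 1)) {s : ℂ} (hs : 1 / 2 < s.re)
    (v : HeightOneSpectrum (𝓞 K)) (t : Fin 2 ⊕ J → kv v) :
    Complex.exp (ex 𝓕 k v s t) = Complex.exp (ell (av 𝓕 v t) (xv v s)) ^ k *
      ((1 - (nv v : ℂ) ^ (-s))⁻¹) ^ (k * 𝓕.rk) * (((1 - (nv v : ℂ) ^ (-(2 * s - 1)))⁻¹) ^ κ)⁻¹ := by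
  obtain ⟨h1, h2⟩ := xv_lt hs v
  unfold ex expo
  rw [kp_int hκ, sub_eq_add_neg, Complex.exp_add, Complex.exp_add]
  congr 1
  · congr 1
    · rw [Complex.exp_int_mul]
    · have e : (k : ℂ) * ((𝓕.rk : ℝ) : ℂ) * ell (fun _ => 1) (xv v s) = ((k * 𝓕.rk : ℤ) : ℂ) * ell (fun _ => 1) (xv v s) := by
        push_cast; ring
      rw [e, Complex.exp_int_mul, exp_ell_one h1]
      rfl
  · rw [Complex.exp_neg, Complex.exp_nat_mul, exp_ell_one h2]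
    congr 4
    have e : -(2 * s - 1) = 1 - 2 * s := by ring
    rw [e, xv_sq]
    push_cast
    rfl

/-- the majorant in the region of convergence -/
noncomputable def u1 (n : ℂ) (σ : ℝ) (v : HeightOneSpectrum (𝓞 K)) : ℝ :=
  (‖n‖ * DD 𝓕.F₀.natDegree * (1 - 2 ^ (1 / 2 - σ))⁻¹) *
    Real.exp (‖n‖ * DD 𝓕.F₀.natDegree * (1 - 2 ^ (1 / 2 - σ))⁻¹) * (nv v : ℝ) ^ (1 / 2 - σ)

theorem u1_summable (n : ℂ) {σ : ℝ} (hσ : 3 / 2 < σ) :
    Summable (u1 𝓕 n σ : HeightOneSpectrum (𝓞 K) → ℝ) := by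
  unfold u1
  have h := (Pool.Agent.H921R2.TatePole.nm_summable (K := K) (x := σ - 1 / 2) (by linarith)).mul_left
    ((‖n‖ * DD 𝓕.F₀.natDegree * (1 - 2 ^ (1 / 2 - σ))⁻¹) *
    Real.exp (‖n‖ * DD 𝓕.F₀.natDegree * (1 - 2 ^ (1 / 2 - σ))⁻¹))
  refine h.congr fun v => ?_
  rw [Run7.h876.MM.nv_eq]
  congr 2
  ring

theorem exp_u1 (n : ℂ) {σ : ℝ} (hσ : 1 / 2 < σ) (v : HeightOneSpectrum (𝓞 K)) {s : ℂ} (hs : σ ≤ s.re)
    (t : Fin 2 ⊕ J → kv v) : ‖Complex.exp (n * ell (av 𝓕 v t) (xv v s)) - 1‖ ≤ u1 𝓕 n σ v := by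
  have hD := DD_nonneg 𝓕.F₀.natDegree
  have hw : 0 < (1 - (2 : ℝ) ^ (1 / 2 - σ))⁻¹ := inv_pos.2 (by linarith [y0_lt hσ])
  have h1 := ell_le hD (Real.sqrt_nonneg _) (av_le 𝓕 v t) (y_le hσ v hs) (y0_lt hσ)
  set B := ‖n‖ * DD 𝓕.F₀.natDegree * (1 - (2 : ℝ) ^ (1 / 2 - σ))⁻¹ with hB
  have hB0 : 0 ≤ B := by positivity
  obtain ⟨g1, g2⟩ := nv_rpow_le hσ v hs
  set y := Real.sqrt (nv v) * ‖xv v s‖ with hy
  have hy1 : y ≤ 1 := (y_le hσ v hs).trans (y0_lt hσ).le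
  have hy2 : y ≤ (nv v : ℝ) ^ (1 / 2 - σ) := by rw [hy, sqrt_nv_xv]; exact g1
  have h2 : ‖n * ell (av 𝓕 v t) (xv v s)‖ ≤ B * y := by
    rw [norm_mul]
    calc ‖n‖ * ‖ell (av 𝓕 v t) (xv v s)‖ ≤ ‖n‖ * (DD 𝓕.F₀.natDegree * y / (1 - 2 ^ (1 / 2 - σ))) := by gcongr
      _ = B * y := by rw [hB, div_eq_mul_inv]; ring
  have h3 : ‖n * ell (av 𝓕 v t) (xv v s)‖ ≤ B := h2.trans (mul_le_of_le_one_right hB0 hy1)
  have h4 := Complex.norm_exp_sub_sum_le_norm_mul_exp (n * ell (av 𝓕 v t) (xv v s)) 1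
  simp only [Finset.sum_range_one, pow_zero, Nat.factorial_zero, Nat.cast_one, div_one, pow_one] at h4
  refine h4.trans ?_
  unfold u1
  rw [← hB]
  calc ‖n * ell (av 𝓕 v t) (xv v s)‖ * Real.exp ‖n * ell (av 𝓕 v t) (xv v s)‖ ≤ (B * y) * Real.exp B := by gcongr
    _ ≤ (B * (nv v : ℝ) ^ (1 / 2 - σ)) * Real.exp B := by gcongr
    _ = _ := by ring

theorem LSeries_zpow (k : ℤ) {σ : ℝ} (hσ : 3 / 2 < σ) {s : ℂ} (hs : σ ≤ s.re) (t : Fin 2 ⊕ J → 𝓞 K) :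
    LSeries (𝓕.member t) s ^ k = ∏' v : HeightOneSpectrum (𝓞 K), Complex.exp (k * ell (av 𝓕 v (rd v t)) (xv v s)) := by
  unfold LSeries
  have h1 : ∀ v, factor (𝓕.member t) v s = Complex.exp (ell (av 𝓕 v (rd v t)) (xv v s)) := fun v => factor_eq 𝓕 v t s
  rw [tprod_congr h1, tprod_zpow' (u1_summable 𝓕 1 hσ) (fun v => by
    have := exp_u1 𝓕 1 (by linarith : 1 / 2 < σ) v hs (rd v t)
    rwa [one_mul] at this) (fun v => Complex.exp_ne_zero _) k]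
  exact tprod_congr fun v => (Complex.exp_int_mul _ _).symm

theorem mv_eq {k : ℤ} {κ : ℕ} (hκ : 2 * (κ : ℤ) = k * (k - 1)) {s : ℂ} (hs : 1 / 2 < s.re) (v : HeightOneSpectrum (𝓞 K)) :
    avg Finset.univ (fun t : Fin 2 ⊕ J → kv v => Complex.exp (k * ell (av 𝓕 v t) (xv v s))) =
      ((1 - (nv v : ℂ) ^ (-s))⁻¹) ^ (-(k * (𝓕.rk : ℤ))) * ((1 - (nv v : ℂ) ^ (-(2 * s - 1)))⁻¹) ^ κ * hv 𝓕 k v s := by
  obtain ⟨h1, h2⟩ := xv_lt hs v
  have n1 : (1 - (nv v : ℂ) ^ (-s))⁻¹ ≠ 0 := by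
    rw [← show Complex.exp (ell (fun _ => 1) (xv v s)) = (1 - (nv v : ℂ) ^ (-s))⁻¹ from exp_ell_one h1]
    exact Complex.exp_ne_zero _
  have e2 : ((nv v : ℝ) : ℂ) * xv v s ^ 2 = (nv v : ℂ) ^ (-(2 * s - 1)) := by
    have e : -(2 * s - 1) = 1 - 2 * s := by ring
    rw [e, xv_sq]
    push_cast
    rfl
  have n2 : (1 - (nv v : ℂ) ^ (-(2 * s - 1)))⁻¹ ≠ 0 := by
    rw [← e2, ← exp_ell_one h2]
    exact Complex.exp_ne_zero _
  unfold hv
  rw [show (fun t : Fin 2 ⊕ J → kv v => Complex.exp (ex 𝓕 k v s t)) = fun t => Complex.exp (k * ell (av 𝓕 v t) (xv v s)) *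
      (((1 - (nv v : ℂ) ^ (-s))⁻¹) ^ (k * 𝓕.rk) * (((1 - (nv v : ℂ) ^ (-(2 * s - 1)))⁻¹) ^ κ)⁻¹) from by
    funext t
    rw [exp_ex_eq 𝓕 hκ hs, Complex.exp_int_mul]
    ring]
  unfold avg
  rw [← Finset.sum_mul, zpow_neg]
  have n3 := zpow_ne_zero (k * (𝓕.rk : ℤ)) n1
  have n4 := pow_ne_zero κ n2
  generalize ((1 - (nv v : ℂ) ^ (-s))⁻¹) ^ (k * (𝓕.rk : ℤ)) = A at n3 ⊢
  generalize ((1 - (nv v : ℂ) ^ (-(2 * s - 1)))⁻¹) ^ κ = B at n4 ⊢
  field_simp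

theorem tprod_mv {k : ℤ} {κ : ℕ} (hκ : 2 * (κ : ℤ) = k * (k - 1)) {s : ℂ} (hs : 1 < s.re) :
    ∏' v : HeightOneSpectrum (𝓞 K), avg Finset.univ (fun t : Fin 2 ⊕ J → kv v => Complex.exp (k * ell (av 𝓕 v t) (xv v s))) =
      dedekindZeta K s ^ (-(k * (𝓕.rk : ℤ))) * dedekindZeta K (2 * s - 1) ^ κ * GG 𝓕 k s := by
  have hs2 : 1 < (2 * s - 1).re := by simp; linarith
  have h1 := hasProd_zpow' (hasProd_zeta (K := K) hs) (zeta_ne hs) (-(k * (𝓕.rk : ℤ)))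
  have h2 := hasProd_zpow' (hasProd_zeta (K := K) hs2) (zeta_ne hs2) (κ : ℤ)
  simp only [zpow_natCast] at h2
  obtain ⟨u, hu, hub⟩ := exists_u 𝓕 (σ := s.re) (by linarith) (norm_nonneg (k : ℂ))
  have h4 := (mult_of hu (fun v => hub v k s le_rfl le_rfl)).hasProd
  have h5 := (h1.mul h2).mul h4
  refine HasProd.tprod_eq (h5.congr_fun fun v => ?_)
  rw [mv_eq 𝓕 hκ (by linarith) v]

/-- **The moments in the region of convergence.** -/
theorem part1 {k : ℤ} {κ : ℕ} (hκ : 2 * (κ : ℤ) = k * (k - 1)) {δ : ℝ} (hδ : 0 < δ) {ε : ℝ} (hε : 0 < ε) :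
    ∃ M : ℕ, ∀ H : Fin 2 ⊕ J → ℕ, (∀ j, M ≤ H j) → ∀ s : ℂ, 3 / 2 + δ ≤ s.re →
      ‖mean ω H 𝓕.smooth (fun t => LSeries (𝓕.member t) s ^ k) -
        dedekindZeta K s ^ (-(k * (𝓕.rk : ℤ))) * dedekindZeta K (2 * s - 1) ^ κ * GG 𝓕 k s‖ ≤ ε := by
  obtain ⟨M, hM⟩ := meanA (P := {s : ℂ // 3 / 2 + δ ≤ s.re}) ω (thin_smooth 𝓕 ω) (u1 𝓕 k (3 / 2 + δ)) (u1_summable 𝓕 k (by linarith))
    (fun v p t => Complex.exp (k * ell (av 𝓕 v t) (xv v p.1))) (fun v p t => exp_u1 𝓕 k (by linarith) v p.2 t) hε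
  refine ⟨M, fun H hH s hs => ?_⟩
  have h := hM H hH ⟨s, hs⟩
  simp only at h
  rw [tprod_mv 𝓕 hκ (by linarith : 1 < s.re)] at h
  have e : (fun t => LSeries (𝓕.member t) s ^ k) =
      fun t => ∏' v : HeightOneSpectrum (𝓞 K), Complex.exp (k * ell (av 𝓕 v (rd v t)) (xv v s)) := by
    funext t
    exact LSeries_zpow 𝓕 k (by linarith : 3 / 2 < 3 / 2 + δ) hs t
  rw [e]
  exact h

/-! ### past the edge -/

theorem partialProduct_eq (Z : ℕ) (f : (𝓞 K)[X]) (s : ℂ) :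
    partialProduct Z f s = ∏ v ∈ SZ K Z, factor f v s := by
  classical
  unfold partialProduct
  rw [tprod_eq_prod (s := SZ K Z) (fun v hv => if_neg fun h => hv (mem_SZ.2 h))]
  exact Finset.prod_congr rfl fun v hv => if_pos (mem_SZ.1 hv)

theorem partialZeta_eq (Z : ℕ) (w : ℂ) :
    partialZeta K Z w = ∏ v ∈ SZ K Z, (1 - (nv v : ℂ) ^ (-w))⁻¹ := by
  classical
  unfold partialZeta
  rw [tprod_eq_prod (s := SZ K Z) (fun v hv => if_neg fun h => hv (mem_SZ.2 h))]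
  exact Finset.prod_congr rfl fun v hv => if_pos (mem_SZ.1 hv)

theorem mean_mul_const (H : Fin 2 ⊕ J → ℕ) (G : Set (Fin 2 ⊕ J → 𝓞 K)) (F : (Fin 2 ⊕ J → 𝓞 K) → ℂ) (c : ℂ) :
    mean ω H G (fun t => F t * c) = mean ω H G F * c := by
  unfold mean
  rw [← Finset.sum_mul]
  ring

/-- **The moments of the partial Euler products past the edge of convergence.** -/
theorem part2 {k : ℤ} {κ : ℕ} (hκ : 2 * (κ : ℤ) = k * (k - 1)) {σ : ℝ} (hσ : 5 / 6 < σ) {θ : ℝ} (hθ : 0 < θ)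
    {ε : ℝ} (hε : 0 < ε) :
    ∃ Z₀ : ℕ, ∀ Z : ℕ, Z₀ ≤ Z → ∀ H : Fin 2 ⊕ J → ℕ, (∀ j, Real.exp ((Z : ℝ) ^ (1 + θ)) ≤ H j) → ∀ s : ℂ, σ ≤ s.re →
      ‖mean ω H 𝓕.smooth (fun t => partialProduct Z (𝓕.member t) s ^ k) * partialZeta K Z s ^ (k * (𝓕.rk : ℤ)) *
        (partialZeta K Z (2 * s - 1) ^ κ)⁻¹ - GG 𝓕 k s‖ ≤ ε := by
  have hσ2 : 1 / 2 < σ := by linarith
  obtain ⟨u, hu, hub⟩ := exists_u 𝓕 hσ (norm_nonneg (k : ℂ))
  obtain ⟨Z₀, hZ₀⟩ := meanB (P := {s : ℂ // σ ≤ s.re}) ω (by positivity) (thin_smooth 𝓕 ω) u hu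
    (fun v p t => Complex.exp (ex 𝓕 k v p.1 t)) (D := Real.exp (EB 𝓕 ‖(k : ℂ)‖ σ))
    (Real.one_le_exp (EB_nonneg 𝓕 (norm_nonneg _) hσ2)) (fun v p t => exp_ex_le 𝓕 (norm_nonneg _) hσ2 le_rfl v p.2 t)
    (fun v p => hub v k p.1 le_rfl p.2) hθ hε
  refine ⟨Z₀, fun Z hZ H hH s hs => ?_⟩
  have h := hZ₀ Z hZ H hH ⟨s, hs⟩
  have e : (fun t : Fin 2 ⊕ J → 𝓞 K => ∏ v ∈ SZ K Z, Complex.exp (ex 𝓕 k v s (rd v t))) =
      fun t => partialProduct Z (𝓕.member t) s ^ k * (partialZeta K Z s ^ (k * (𝓕.rk : ℤ)) *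
        (partialZeta K Z (2 * s - 1) ^ κ)⁻¹) := by
    funext t
    rw [partialProduct_eq, partialZeta_eq, partialZeta_eq, ← Finset.prod_zpow, ← Finset.prod_zpow, ← Finset.prod_pow,
      ← Finset.prod_inv_distrib, ← Finset.prod_mul_distrib, ← Finset.prod_mul_distrib]
    refine Finset.prod_congr rfl fun v _ => ?_
    rw [exp_ex_eq 𝓕 hκ (by linarith : 1 / 2 < s.re), factor_eq]
    ring
  simp only at h
  rw [e, mean_mul_const, ← mul_assoc] at h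
  exact h

end

end Run7.h876.HY
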