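import Pool.Agent.Run7.h876.HY.Defs
import Pool.Agent.Run7.h876.EN.Eng
import Pool.Agent.Run7.h876.EN.NS

/-!
# The Euler factors in terms of the residues of the parameters
-/

set_option autoImplicit false
set_option linter.unusedSectionVars false

namespace Run7.h876.HY

open NumberField IsDedekindDomain Polynomial Finset
open Run7.h876.MM (nv kv two_le_nv nv_pos avg card_kv xv norm_xv sqrt_mul_xv xv_sq instFieldKv instFintypeKv instDecKv
  ring_char_two nv_rpow_le y0_lt norm_avg_le)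
open Run7.h876.EN

/-! ### monic polynomials -/

theorem monic_aux {A : Type} [CommRing A] [Nontrivial A] {r : ℕ} {F g : A[X]} (hF : F.Monic) (x : Fin r → A)
    (hd : r + g.natDegree < F.natDegree) :
    (F + (∏ i, (X - C (x i))) * g).Monic ∧ (F + (∏ i, (X - C (x i))) * g).natDegree = F.natDegree := by
  have h1 : ((∏ i, (X - C (x i))) * g).natDegree ≤ r + g.natDegree := by
    refine natDegree_mul_le.trans (add_le_add_left ?_ _)
    refine (natDegree_prod_le _ _).trans ?_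
    simp
  have h3 : ((∏ i, (X - C (x i))) * g).degree < F.degree := by
    rw [degree_eq_natDegree hF.ne_zero]
    exact (degree_le_natDegree).trans_lt (by exact_mod_cast (h1.trans_lt hd))
  exact ⟨hF.add_of_left h3, natDegree_eq_of_degree_eq (degree_add_eq_left_of_degree_lt h3)⟩

section
variable {K : Type} [Field K] [NumberField K] {J : Type} [Fintype J] [DecidableEq J] (𝓕 : Family K J)

/-- the polynomial over the residue field -/
noncomputable def fpol (v : HeightOneSpectrum (𝓞 K)) (t : Fin 2 ⊕ J → kv v) : (kv v)[X] :=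
  𝓕.F₀.map (Ideal.Quotient.mk v.asIdeal) + (∏ i, (X - C (Ideal.Quotient.mk v.asIdeal (𝓕.x i)))) *
    (C (t (Sum.inl 0)) * X + C (t (Sum.inl 1)) + ∑ j, C (t (Sum.inr j)) * (𝓕.P j).map (Ideal.Quotient.mk v.asIdeal))

theorem map_member (v : HeightOneSpectrum (𝓞 K)) (t : Fin 2 ⊕ J → 𝓞 K) :
    (𝓕.member t).map (Ideal.Quotient.mk v.asIdeal) = fpol 𝓕 v (rd v t) := by
  unfold Family.member fpol rd
  simp only [Polynomial.map_add, Polynomial.map_mul, Polynomial.map_prod, Polynomial.map_sub, Polynomial.map_X,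
    Polynomial.map_C, Polynomial.map_sum]

theorem lin_deg {A : Type} [CommRing A] (P : J → A[X]) (d r : ℕ) (hd : r + 2 ≤ d) (hP : ∀ j, r + (P j).natDegree < d)
    (t : Fin 2 ⊕ J → A) :
    r + (C (t (Sum.inl 0)) * X + C (t (Sum.inl 1)) + ∑ j, C (t (Sum.inr j)) * P j).natDegree < d := by
  have h1 : (C (t (Sum.inl 0)) * X + C (t (Sum.inl 1)) : A[X]).natDegree ≤ 1 := by compute_degree
  have h2 : (∑ j, C (t (Sum.inr j)) * P j).natDegree ≤ d - r - 1 := by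
    refine natDegree_sum_le_of_forall_le _ _ fun j _ => ?_
    refine (natDegree_C_mul_le _ _).trans ?_
    have := hP j
    omega
  have h3 := natDegree_add_le (C (t (Sum.inl 0)) * X + C (t (Sum.inl 1)) : A[X]) (∑ j, C (t (Sum.inr j)) * P j)
  have h4 : max (C (t (Sum.inl 0)) * X + C (t (Sum.inl 1)) : A[X]).natDegree (∑ j, C (t (Sum.inr j)) * P j).natDegree ≤ d - r - 1 :=
    max_le (by omega) h2
  omega

theorem fpol_monic (v : HeightOneSpectrum (𝓞 K)) (t : Fin 2 ⊕ J → kv v) :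
    (fpol 𝓕 v t).Monic ∧ (fpol 𝓕 v t).natDegree = 𝓕.F₀.natDegree := by
  have hF := 𝓕.monic.map (Ideal.Quotient.mk v.asIdeal)
  have hFd : (𝓕.F₀.map (Ideal.Quotient.mk v.asIdeal)).natDegree = 𝓕.F₀.natDegree := 𝓕.monic.natDegree_map _
  have h := monic_aux hF (fun i => Ideal.Quotient.mk v.asIdeal (𝓕.x i))
    (g := C (t (Sum.inl 0)) * X + C (t (Sum.inl 1)) + ∑ j, C (t (Sum.inr j)) * (𝓕.P j).map (Ideal.Quotient.mk v.asIdeal))
    (by
      rw [hFd]
      exact lin_deg (fun j => (𝓕.P j).map (Ideal.Quotient.mk v.asIdeal)) _ _ 𝓕.deg (fun j =>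
        (add_le_add_right natDegree_map_le _).trans_lt (𝓕.deg_P j)) t)
  rw [hFd] at h
  exact h

theorem member_monic (t : Fin 2 ⊕ J → 𝓞 K) :
    (𝓕.member t).Monic ∧ (𝓕.member t).natDegree = 𝓕.F₀.natDegree :=
  monic_aux 𝓕.monic 𝓕.x (lin_deg 𝓕.P _ _ 𝓕.deg 𝓕.deg_P t)

/-! ### the traces -/

open Classical in
/-- the traces as functions of the residues -/
noncomputable def av (v : HeightOneSpectrum (𝓞 K)) (t : Fin 2 ⊕ J → kv v) (m : ℕ) : ℂ :=
  if ringChar (kv v) ≠ 2 then (trc (fpol 𝓕 v t) m : ℂ) else 0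

theorem av_real (v : HeightOneSpectrum (𝓞 K)) (t : Fin 2 ⊕ J → kv v) (m : ℕ) :
    av 𝓕 v t m = (((if ringChar (kv v) ≠ 2 then (trc (fpol 𝓕 v t) m : ℝ) else 0) : ℝ) : ℂ) := by
  unfold av
  split_ifs <;> simp

/-- the constant -/
def DD (d : ℕ) : ℝ := 5 * d + 1

theorem DD_nonneg (d : ℕ) : 0 ≤ DD d := by unfold DD; positivity

theorem av_le (v : HeightOneSpectrum (𝓞 K)) (t : Fin 2 ⊕ J → kv v) (m : ℕ) :
    ‖av 𝓕 v t m‖ ≤ DD 𝓕.F₀.natDegree * Real.sqrt (nv v) ^ (m + 1) := by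
  have hD := DD_nonneg 𝓕.F₀.natDegree
  obtain ⟨h1, h2⟩ := fpol_monic 𝓕 v t
  have h3 := 𝓕.deg_three
  unfold av
  split_ifs with h
  · have h4 := trc_le h h1 (by omega) m
    rw [h2, card_kv] at h4
    rw [Complex.norm_intCast]
    exact h4
  · rw [norm_zero]
    positivity

theorem goodAt_iff (v : HeightOneSpectrum (𝓞 K)) (t : Fin 2 ⊕ J → 𝓞 K) :
    GoodAt (𝓕.member t) v ↔ ringChar (kv v) ≠ 2 ∧ (fpol 𝓕 v (rd v t)).Separable := by
  unfold GoodAt
  rw [map_member]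
  refine and_congr_left fun _ => ?_
  rw [← not_iff_not, not_not, not_not, ← Ideal.Quotient.eq_zero_iff_mem, map_ofNat]
  constructor
  · intro h
    by_contra hne
    exact Run7.h876.MM.two_ne (k := kv v) hne h
  · exact fun h => ring_char_two h

theorem factor_eq (v : HeightOneSpectrum (𝓞 K)) (t : Fin 2 ⊕ J → 𝓞 K) (s : ℂ) :
    factor (𝓕.member t) v s = Complex.exp (ell (av 𝓕 v (rd v t)) (xv v s)) := by
  classical
  unfold factor
  by_cases h : GoodAt (𝓕.member t) v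
  · rw [if_pos h]
    obtain ⟨h1, h2⟩ := (goodAt_iff 𝓕 v t).1 h
    unfold ell
    congr 2
    funext m
    have h3 : frobTrace (𝓕.member t) v (m + 1) = trc (fpol 𝓕 v (rd v t)) m := by
      unfold frobTrace
      rw [trc_eq h1 h2, card_kv, map_member, (fpol_monic 𝓕 v _).2, (member_monic 𝓕 t).2]
    rw [h3]
    unfold av xv
    rw [if_pos h1]
  · rw [if_neg h]
    have h0 : av 𝓕 v (rd v t) = fun _ => 0 := by
      funext m
      unfold av
      split_ifs with hc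
      · have h2 : ¬ (fpol 𝓕 v (rd v t)).Separable := fun h2 => h ((goodAt_iff 𝓕 v t).2 ⟨hc, h2⟩)
        unfold trc
        rw [if_neg h2, Int.cast_zero]
      · rfl
    rw [h0]
    unfold ell
    simp

/-! ### the moments at almost all places -/

/-- the exceptional number -/
noncomputable def N0 : 𝓞 K :=
  2 * ((𝓕.F₀.natDegree - 𝓕.r : ℕ) : 𝓞 K) * (∏ i, 𝓕.y i) *
    ∏ p ∈ (Finset.univ : Finset (Fin 𝓕.r × Fin 𝓕.r)).filter (fun p => p.1 ≠ p.2), (𝓕.x p.1 - 𝓕.x p.2)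

theorem N0_ne : N0 𝓕 ≠ 0 := by
  have h := 𝓕.deg
  unfold N0
  refine mul_ne_zero (mul_ne_zero (mul_ne_zero two_ne_zero ?_) (Finset.prod_ne_zero_iff.2 fun i _ => 𝓕.y_ne i)) ?_
  · exact_mod_cast (by omega : 𝓕.F₀.natDegree - 𝓕.r ≠ 0)
  · refine Finset.prod_ne_zero_iff.2 fun p hp => sub_ne_zero.2 fun h => ?_
    exact (Finset.mem_filter.1 hp).2 (𝓕.x_inj h)

theorem finite_bad : {v : HeightOneSpectrum (𝓞 K) | N0 𝓕 ∈ v.asIdeal}.Finite := by
  have h1 := Ideal.finite_factors (R := 𝓞 K) (I := Ideal.span {N0 𝓕}) (by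
    rw [Ne, Ideal.zero_eq_bot, Ideal.span_singleton_eq_bot]
    exact N0_ne 𝓕)
  refine h1.subset fun v hv => ?_
  show v.asIdeal ∣ Ideal.span {N0 𝓕}
  rw [Ideal.dvd_span_singleton]
  exact hv

theorem good_facts {v : HeightOneSpectrum (𝓞 K)} (hv : N0 𝓕 ∉ v.asIdeal) :
    ringChar (kv v) ≠ 2 ∧ ((𝓕.F₀.natDegree - 𝓕.r : ℕ) : kv v) ≠ 0 ∧
    (∀ i, Ideal.Quotient.mk v.asIdeal (𝓕.y i) ≠ 0) ∧
    Function.Injective (fun i => Ideal.Quotient.mk v.asIdeal (𝓕.x i)) := by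
  rw [← Ideal.Quotient.eq_zero_iff_mem] at hv
  unfold N0 at hv
  rw [map_mul, map_mul, map_mul, map_ofNat, map_natCast, map_prod, map_prod] at hv
  have h1 := left_ne_zero_of_mul (left_ne_zero_of_mul (left_ne_zero_of_mul hv))
  have h2 := right_ne_zero_of_mul (left_ne_zero_of_mul (left_ne_zero_of_mul hv))
  have h3 := right_ne_zero_of_mul (left_ne_zero_of_mul hv)
  have h4 := right_ne_zero_of_mul hv
  refine ⟨fun h => h1 (ring_char_two h), h2, fun i => Finset.prod_ne_zero_iff.1 h3 i (Finset.mem_univ _), ?_⟩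
  intro i j hij
  by_contra hne
  have h5 := Finset.prod_ne_zero_iff.1 h4 (i, j) (Finset.mem_filter.2 ⟨Finset.mem_univ _, hne⟩)
  rw [map_sub] at h5
  exact h5 (sub_eq_zero.2 hij)

theorem fiber_bound {k : Type} [Fintype k] [DecidableEq k] [Nonempty k] (φ : (Fin 2 ⊕ J → k) → ℝ) (c B : ℝ) (_hB : 0 ≤ B)
    (h : ∀ w : J → k, |(∑ p : k × k, φ (Sum.elim ![p.1, p.2] w)) / (Fintype.card k : ℝ) ^ 2 + c| ≤ B) :
    ‖avg Finset.univ (fun t => (φ t : ℂ)) + c‖ ≤ B := by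
  have hq : (0 : ℝ) < Fintype.card k := by exact_mod_cast Fintype.card_pos
  let e : (k × k) × (J → k) ≃ (Fin 2 ⊕ J → k) :=
    (((finTwoArrowEquiv k).symm).prodCongr (Equiv.refl _)).trans (Equiv.sumArrowEquivProdArrow _ _ _).symm
  have he : ∀ p w, e (p, w) = Sum.elim ![p.1, p.2] w := fun p w => rfl
  have h1 : ∑ t : Fin 2 ⊕ J → k, φ t = ∑ w : J → k, ∑ p : k × k, φ (Sum.elim ![p.1, p.2] w) := by
    rw [← Equiv.sum_comp e φ, Fintype.sum_prod_type, Finset.sum_comm]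
    rfl
  have hcard : (Fintype.card (Fin 2 ⊕ J → k) : ℝ) = (Fintype.card k : ℝ) ^ 2 * Fintype.card (J → k) := by
    rw [← Fintype.card_congr e, Fintype.card_prod, Fintype.card_prod]
    push_cast; ring
  have hJ : (0 : ℝ) < Fintype.card (J → k) := by exact_mod_cast Fintype.card_pos
  have h2 : avg Finset.univ (fun t => (φ t : ℂ)) + c =
      (((∑ w : J → k, ((∑ p : k × k, φ (Sum.elim ![p.1, p.2] w)) / (Fintype.card k : ℝ) ^ 2 + c)) / Fintype.card (J → k) : ℝ) : ℂ) := by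
    unfold avg
    rw [Finset.card_univ, ← Complex.ofReal_sum, h1]
    have h3 : ((Fintype.card (Fin 2 ⊕ J → k) : ℕ) : ℂ) = (((Fintype.card k : ℝ) ^ 2 * Fintype.card (J → k) : ℝ) : ℂ) := by
      rw [← hcard]; simp
    rw [h3, ← Complex.ofReal_div, ← Complex.ofReal_add]
    congr 1
    rw [Finset.sum_add_distrib, ← Finset.sum_div, Finset.sum_const, Finset.card_univ, nsmul_eq_mul]
    field_simp
  rw [h2, Complex.norm_real, Real.norm_eq_abs, abs_div, abs_of_pos hJ, div_le_iff₀ hJ]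
  refine (Finset.abs_sum_le_sum_abs _ _).trans ((Finset.sum_le_sum fun w _ => h w).trans ?_)
  rw [Finset.sum_const, Finset.card_univ, nsmul_eq_mul, mul_comm]

open Classical in
theorem fpol_fam {v : HeightOneSpectrum (𝓞 K)} (hv : N0 𝓕 ∉ v.asIdeal) (w : J → kv v) :
    ∃ (U : (kv v)[X]) (R : Finset (kv v)), U.Monic ∧ U.natDegree = 𝓕.F₀.natDegree ∧ R.card = 𝓕.r ∧
      (∀ x ∈ R, quadraticChar (kv v) (U.eval x) = 1) ∧
      ∀ p : kv v × kv v, fpol 𝓕 v (Sum.elim ![p.1, p.2] w) = fam U R p := by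
  obtain ⟨h1, h2, h3, h4⟩ := good_facts 𝓕 hv
  set R : Finset (kv v) := Finset.univ.image (fun i => Ideal.Quotient.mk v.asIdeal (𝓕.x i)) with hR
  have hmR : mR R = ∏ i, (X - C (Ideal.Quotient.mk v.asIdeal (𝓕.x i))) := by
    unfold mR
    rw [hR, Finset.prod_image fun i _ j _ h => h4 h]
  set U := fpol 𝓕 v (Sum.elim ![0, 0] w) with hU
  have hUd := fpol_monic 𝓕 v (Sum.elim ![0, 0] w)
  have hfam : ∀ p : kv v × kv v, fpol 𝓕 v (Sum.elim ![p.1, p.2] w) = fam U R p := by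
    intro p
    unfold fam
    rw [hU, hmR]
    unfold fpol
    simp only [Sum.elim_inl, Sum.elim_inr, Matrix.cons_val_zero, Matrix.cons_val_one, C_0, zero_mul, zero_add]
    ring
  refine ⟨U, R, hUd.1, hUd.2, ?_, ?_, hfam⟩
  · rw [hR, Finset.card_image_of_injective _ h4, Finset.card_univ, Fintype.card_fin]
  · intro x hx
    obtain ⟨i, _, rfl⟩ := Finset.mem_image.1 hx
    have e1 : U.eval (Ideal.Quotient.mk v.asIdeal (𝓕.x i)) = (Ideal.Quotient.mk v.asIdeal (𝓕.y i)) ^ 2 := by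
      rw [hU]
      unfold fpol
      rw [eval_add, eval_mul, eval_prod, Finset.prod_eq_zero (Finset.mem_univ i) (by simp), zero_mul, add_zero,
        eval_map, eval₂_at_apply, 𝓕.on_curve, map_pow]
    rw [e1, map_pow, quadraticChar_sq_one (h3 i)]

/-- the number of the marked points as a real number -/
theorem rk_eq : (𝓕.rk : ℕ) = 𝓕.r + dlt 𝓕.F₀.natDegree := rfl

theorem local_moments {v : HeightOneSpectrum (𝓞 K)} (hv : N0 𝓕 ∉ v.asIdeal) :
    ‖avg Finset.univ (fun t => av 𝓕 v t 0) + ((𝓕.rk : ℝ) : ℂ)‖ ≤ C1 𝓕.F₀.natDegree / Real.sqrt (nv v) ∧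
    ‖avg Finset.univ (fun t => (av 𝓕 v t 0 + ((𝓕.rk : ℝ) : ℂ)) ^ 2) - ((nv v : ℝ) : ℂ)‖ ≤
      C1 𝓕.F₀.natDegree * Real.sqrt (nv v) ∧
    ‖avg Finset.univ (fun t => av 𝓕 v t 1) + ((nv v : ℝ) : ℂ)‖ ≤ C1 𝓕.F₀.natDegree * Real.sqrt (nv v) := by
  obtain ⟨h1, h2, h3, h4⟩ := good_facts 𝓕 hv
  have hC := C1_nonneg 𝓕.F₀.natDegree
  have hd3 := 𝓕.deg_three
  have hdr := 𝓕.deg
  have key : ∀ w : J → kv v,
      |(∑ p : kv v × kv v, (trc (fpol 𝓕 v (Sum.elim ![p.1, p.2] w)) 0 : ℝ)) / (Fintype.card (kv v) : ℝ) ^ 2 + (𝓕.rk : ℝ)| ≤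
        C1 𝓕.F₀.natDegree / Real.sqrt (nv v) ∧
      |(∑ p : kv v × kv v, ((trc (fpol 𝓕 v (Sum.elim ![p.1, p.2] w)) 0 : ℝ) + (𝓕.rk : ℝ)) ^ 2) / (Fintype.card (kv v) : ℝ) ^ 2 +
        (-(nv v : ℝ))| ≤ C1 𝓕.F₀.natDegree * Real.sqrt (nv v) ∧
      |(∑ p : kv v × kv v, (trc (fpol 𝓕 v (Sum.elim ![p.1, p.2] w)) 1 : ℝ)) / (Fintype.card (kv v) : ℝ) ^ 2 + (nv v : ℝ)| ≤
        C1 𝓕.F₀.natDegree * Real.sqrt (nv v) := by
    intro w
    obtain ⟨U, R, hU1, hU2, hR1, hR2, hfam⟩ := fpol_fam 𝓕 hv w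
    have hm := moments h1 hU1 (R := R) (by rw [hR1, hU2]; exact hdr) (by rw [hU2]; exact hd3) hR2 (by rw [hR1, hU2]; exact h2)
    rw [hU2, hR1, card_kv] at hm
    simp only [hfam, card_kv, rk_eq]
    exact hm
  refine ⟨?_, ?_, ?_⟩
  · have := fiber_bound (fun t => (trc (fpol 𝓕 v t) 0 : ℝ)) (𝓕.rk : ℝ) (C1 𝓕.F₀.natDegree / Real.sqrt (nv v))
      (by positivity) (fun w => (key w).1)
    refine le_trans (le_of_eq ?_) this
    congr 3
    funext t
    unfold av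
    rw [if_pos h1]
    simp
  · have := fiber_bound (fun t => ((trc (fpol 𝓕 v t) 0 : ℝ) + (𝓕.rk : ℝ)) ^ 2) (-(nv v : ℝ)) (C1 𝓕.F₀.natDegree * Real.sqrt (nv v))
      (by positivity) (fun w => (key w).2.1)
    refine le_trans (le_of_eq ?_) this
    rw [Complex.ofReal_neg, ← sub_eq_add_neg]
    congr 3
    funext t
    unfold av
    rw [if_pos h1]
    push_cast
    rfl
  · have := fiber_bound (fun t => (trc (fpol 𝓕 v t) 1 : ℝ)) (nv v : ℝ) (C1 𝓕.F₀.natDegree * Real.sqrt (nv v))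
      (by positivity) (fun w => (key w).2.2)
    refine le_trans (le_of_eq ?_) this
    congr 3
    funext t
    unfold av
    rw [if_pos h1]
    simp

end

end Run7.h876.HY
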